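import Mathlib

/-!
# Pell numbers and powerful divisors
-/

namespace Pool.Agent.J4H97.Pow

/-- Half-companion Pell numbers and Pell numbers: `(1 + √2)^m = H m + P m √2`. -/
def HP : ℕ → ℕ × ℕ
  | 0 => (1, 0)
  | (m + 1) => ((HP m).1 + 2 * (HP m).2, (HP m).1 + (HP m).2)

def H (m : ℕ) : ℕ := (HP m).1
def P (m : ℕ) : ℕ := (HP m).2

@[simp] lemma H_zero : H 0 = 1 := rfl
@[simp] lemma P_zero : P 0 = 0 := rfl
lemma H_succ (m : ℕ) : H (m + 1) = H m + 2 * P m := rfl
lemma P_succ (m : ℕ) : P (m + 1) = H m + P m := rfl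

lemma HP_add (m n : ℕ) :
    H (m + n) = H m * H n + 2 * (P m * P n) ∧ P (m + n) = H m * P n + P m * H n := by
  induction n with
  | zero => simp
  | succ n ih =>
    obtain ⟨h1, h2⟩ := ih
    constructor
    · rw [← add_assoc, H_succ (m + n), h1, h2, H_succ n, P_succ n]; ring
    · rw [← add_assoc, P_succ (m + n), h1, h2, H_succ n, P_succ n]; ring

lemma norm_eq (m : ℕ) : (H m : ℤ) ^ 2 - 2 * (P m : ℤ) ^ 2 = (-1) ^ m := by
  induction m with
  | zero => simp
  | succ m ih =>
    have e : ((-1 : ℤ)) ^ (m + 1) = - (-1) ^ m := by ring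
    rw [e, ← ih, H_succ, P_succ]
    push_cast
    ring

lemma H_pos (m : ℕ) : 1 ≤ H m := by
  induction m with
  | zero => simp
  | succ m ih => rw [H_succ]; omega

lemma P_le_H (m : ℕ) : P m ≤ H m := by
  induction m with
  | zero => simp
  | succ m ih => rw [H_succ, P_succ]; omega

lemma parity (m : ℕ) : H m % 2 = 1 ∧ P m % 2 = m % 2 := by
  induction m with
  | zero => simp
  | succ m ih => rw [H_succ, P_succ]; omega

lemma H_le (m : ℕ) : H m ≤ 3 ^ m := by
  induction m with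
  | zero => simp
  | succ m ih =>
    rw [H_succ, pow_succ]
    have := P_le_H m
    omega

lemma H_two (m : ℕ) : 3 ^ m ≤ H (2 * m) := by
  induction m with
  | zero => simp
  | succ m ih =>
    have : 2 * (m + 1) = 2 * m + 1 + 1 := by ring
    rw [this, H_succ, H_succ, P_succ, pow_succ]
    omega

lemma P_ge (m : ℕ) : 2 ^ m ≤ P (m + 1) := by
  induction m with
  | zero => simp [P_succ]
  | succ m ih =>
    rw [P_succ, pow_succ]
    have := P_le_H (m + 1)
    omega

/-- `P (d M) ≡ d * H^(d-1) * P` modulo `P^2`, and `H (d M) ≡ H^d` modulo `P^2`. -/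
lemma mul_formula (M d : ℕ) : ∃ a b : ℕ, H ((d + 1) * M) = H M ^ (d + 1) + a * P M ^ 2 ∧
    P ((d + 1) * M) = (d + 1) * H M ^ d * P M + b * P M ^ 2 := by
  induction d with
  | zero => exact ⟨0, 0, by simp, by simp⟩
  | succ d ih =>
    obtain ⟨a, b, h1, h2⟩ := ih
    have e : (d + 1 + 1) * M = (d + 1) * M + M := by ring
    obtain ⟨k1, k2⟩ := HP_add ((d + 1) * M) M
    rw [e, k1, k2, h1, h2]
    refine ⟨a * H M + 2 * ((d + 1) * H M ^ d) + 2 * (b * P M), a * P M + b * H M, ?_, ?_⟩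
    · ring
    · ring

lemma dvd_key (M d : ℕ) (hd : d ∣ P M) : d * P M ∣ P (d * M) := by
  rcases Nat.eq_zero_or_pos d with h0 | h0
  · subst h0
    simp
  · obtain ⟨e, rfl⟩ : ∃ e, d = e + 1 := ⟨d - 1, by omega⟩
    obtain ⟨a, b, -, h2⟩ := mul_formula M e
    rw [h2]
    refine dvd_add ?_ ?_
    · exact ⟨H M ^ e, by ring⟩
    · obtain ⟨c, hc⟩ := hd
      refine ⟨b * c, ?_⟩
      rw [pow_two]
      calc b * (P M * P M) = b * (((e + 1) * c) * P M) := by rw [← hc]
        _ = (e + 1) * P M * (b * c) := by ring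

/-- The number `n = 2 P(2k)^2` is powerful when ..., `n + 1 = H(2k)^2`, and
`P (2k+1)` divides `n + 2`. -/
lemma succ_eq (k : ℕ) : 2 * P (2 * k) ^ 2 + 1 = H (2 * k) ^ 2 := by
  have := norm_eq (2 * k)
  rw [pow_mul] at this
  simp at this
  zify
  linarith

lemma dvd_succ_succ (k : ℕ) : P (2 * k + 1) ∣ 2 * P (2 * k) ^ 2 + 2 := by
  have h := succ_eq k
  have hle := P_le_H (2 * k)
  obtain ⟨t, ht⟩ := Nat.exists_eq_add_of_le hle
  rw [P_succ]
  refine ⟨2 * t, ?_⟩
  rw [ht] at h ⊢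
  nlinarith [h]

/-- The powerful part of `m`: the product of the prime powers `p ^ k` that divide `m` exactly,
with `k ≥ 2`. -/
def powerfulPart (m : ℕ) : ℕ :=
  ∏ p ∈ m.primeFactors.filter (fun p => 2 ≤ m.factorization p), p ^ m.factorization p

lemma le_powerfulPart {d m : ℕ} (hm : m ≠ 0) (hd : d ∣ m)
    (hp : ∀ p : ℕ, p.Prime → p ∣ d → p ^ 2 ∣ d) : d ≤ powerfulPart m := by
  have hd0 : d ≠ 0 := fun h => hm (by rw [h] at hd; exact zero_dvd_iff.mp hd)
  have hle := (Nat.factorization_le_iff_dvd hd0 hm).2 hd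
  have e : ∏ p ∈ d.primeFactors, p ^ d.factorization p = d := by
    have := Nat.prod_factorization_pow_eq_self hd0
    rwa [Nat.prod_factorization_eq_prod_primeFactors] at this
  unfold powerfulPart
  calc d = ∏ p ∈ d.primeFactors, p ^ d.factorization p := e.symm
    _ ≤ ∏ p ∈ d.primeFactors, p ^ m.factorization p := by
        refine Finset.prod_le_prod' fun p hpd => ?_
        exact Nat.pow_le_pow_right (Nat.prime_of_mem_primeFactors hpd).pos (hle p)
    _ ≤ ∏ p ∈ m.primeFactors.filter (fun p => 2 ≤ m.factorization p), p ^ m.factorization p := by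
        refine Finset.prod_le_prod_of_subset_of_one_le' ?_ ?_
        · intro p hpd
          have hpp := Nat.prime_of_mem_primeFactors hpd
          have hdv := Nat.dvd_of_mem_primeFactors hpd
          rw [Finset.mem_filter]
          refine ⟨Nat.mem_primeFactors.2 ⟨hpp, hdv.trans hd, hm⟩, ?_⟩
          exact (hpp.pow_dvd_iff_le_factorization hm).1 ((hp p hpp hdv).trans hd)
        · intro p hpm _
          exact Nat.one_le_iff_ne_zero.2
            (pow_ne_zero _ (Nat.prime_of_mem_primeFactors (Finset.mem_filter.1 hpm).1).ne_zero)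

/-- The radical. -/
def rad (m : ℕ) : ℕ := ∏ p ∈ m.primeFactors, p

lemma rad_dvd (m : ℕ) : rad m ∣ m := Nat.prod_primeFactors_dvd m

lemma powerful_mul_rad {m : ℕ} (hm : m ≠ 0) (p : ℕ) (hp : p.Prime) (h : p ∣ rad m * m) :
    p ^ 2 ∣ rad m * m := by
  have h1 : p ∣ m := by
    rcases (hp.dvd_mul).1 h with h | h
    · exact h.trans (rad_dvd m)
    · exact h
  have h2 : p ∣ rad m := Finset.dvd_prod_of_mem _ (Nat.mem_primeFactors.2 ⟨hp, h1, hm⟩)
  rw [pow_two]
  exact mul_dvd_mul h2 h1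

/-- The product `n (n+1) ... (n+l)`. -/
def prodConsec (l n : ℕ) : ℕ := ∏ i ∈ Finset.range (l + 1), (n + i)

lemma prodConsec_dvd (l n : ℕ) (hl : 2 ≤ l) : n * (n + 1) * (n + 2) ∣ prodConsec l n := by
  unfold prodConsec
  have : n * (n + 1) * (n + 2) = ∏ i ∈ Finset.range 3, (n + i) := by
    simp [Finset.prod_range_succ]
  rw [this]
  exact Finset.prod_dvd_prod_of_subset _ _ _ (Finset.range_mono (by omega))

lemma prodConsec_ne_zero (l n : ℕ) (hn : n ≠ 0) : prodConsec l n ≠ 0 := by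
  unfold prodConsec
  exact Finset.prod_ne_zero_iff.2 fun i _ => by omega

/-- The main construction. For `M` odd, `R = rad (P M)` and `n` the number attached to `2k+1 = R M`,
the powerful part of `n (n+1) ... (n+l)` is at least `n^2 * R * P M`. -/
lemma construction (k M l : ℕ) (hM : M % 2 = 1) (hk : 2 * k + 1 = rad (P M) * M) (hk0 : 1 ≤ k)
    (hl : 2 ≤ l) :
    (2 * P (2 * k) ^ 2) ^ 2 * (rad (P M) * P M) ≤
      powerfulPart (prodConsec l (2 * P (2 * k) ^ 2)) := by
  have hPM : P M ≠ 0 := by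
    have := (parity M).2
    omega
  have hP2 : P (2 * k) ≠ 0 := by
    obtain ⟨j, rfl⟩ : ∃ j, k = j + 1 := ⟨k - 1, by omega⟩
    have := P_ge (2 * j + 1)
    have h2 : 0 < 2 ^ (2 * j + 1) := by positivity
    have h3 : 2 * (j + 1) = 2 * j + 1 + 1 := by ring
    rw [h3]
    omega
  set n := 2 * P (2 * k) ^ 2 with hn
  have hn0 : n ≠ 0 := by positivity
  have hdiv1 : rad (P M) * P M ∣ n + 2 := by
    have h1 := dvd_key M (rad (P M)) (rad_dvd _)
    rw [← hk] at h1
    exact h1.trans (dvd_succ_succ k)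
  have hd : n * (n + 1) * (rad (P M) * P M) ∣ prodConsec l n :=
    (mul_dvd_mul_left _ hdiv1).trans (prodConsec_dvd l n hl)
  have hpow : ∀ p : ℕ, p.Prime → p ∣ n * (n + 1) * (rad (P M) * P M) →
      p ^ 2 ∣ n * (n + 1) * (rad (P M) * P M) := by
    intro p hp hpd
    rcases (hp.dvd_mul).1 hpd with h | h
    · rcases (hp.dvd_mul).1 h with h | h
      · -- `p ∣ n`
        refine Dvd.dvd.mul_right (Dvd.dvd.mul_right ?_ _) _
        rcases (hp.dvd_mul).1 h with h | h
        · have h2 : p = 2 := (Nat.prime_dvd_prime_iff_eq hp Nat.prime_two).1 h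
          have h3 : 2 ∣ P (2 * k) := by
            have := (parity (2 * k)).2
            omega
          rw [h2, hn]
          exact Dvd.dvd.mul_left (pow_dvd_pow_of_dvd h3 2) 2
        · exact Dvd.dvd.mul_left (pow_dvd_pow_of_dvd (hp.dvd_of_dvd_pow h) 2) 2
      · refine Dvd.dvd.mul_right (Dvd.dvd.mul_left ?_ _) _
        rw [hn, succ_eq] at h ⊢
        exact pow_dvd_pow_of_dvd (hp.dvd_of_dvd_pow h) 2
    · exact Dvd.dvd.mul_left (powerful_mul_rad hPM p hp h) _
  refine le_trans ?_ (le_powerfulPart (prodConsec_ne_zero l n hn0) hd hpow)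
  refine Nat.mul_le_mul_right _ ?_
  rw [pow_two]
  exact Nat.mul_le_mul_left _ (by omega)

end Pool.Agent.J4H97.Pow
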